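import Pool.Agent.Q61.OT3

/-!
# Octahedrality is not preserved by projective tensor products
-/

namespace Pool.Agent.Results.MP_247e0b_an.ProjTensorNotOctahedral

open Pool.Agent.Q61.OT Pool.Agent.H266R3.LF

/-- There is a Banach space `X` with an octahedral norm such that the projective
tensor product of `X` with the Euclidean plane is not octahedral. -/
theorem result : ∃ (X : Type) (_ : NormedAddCommGroup X) (_ : NormedSpace ℝ X),
    CompleteSpace X ∧ Octahedral X ∧
    ¬ Octahedral (ProjTensor X (EuclideanSpace ℝ (Fin 2))) := by
  refine ⟨FreeSp TM tb, inferInstance, inferInstance, ?_, octahedral_free,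
    not_octahedral_tensor⟩
  exact (Submodule.isClosed_topologicalClosure
    (Submodule.span ℝ (Set.range (dlt TM tb)))).completeSpace_coe

end Pool.Agent.Results.MP_247e0b_an.ProjTensorNotOctahedral
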